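import Pool.Agent.helper64.NQ.Spec

/-!
# Row NZB of project nq: nilpotent groups with enough characters of prime order
-/

set_option autoImplicit false

namespace Pool.Agent.NQ

open Pool.Agent.helper58.DC Pool.Agent.DI Pool.Agent.DR

/-- nilpotent group: a nontrivial normal subgroup meets the centre -/
theorem NZB_cen {G : Type} [Group G] (hG : Group.IsNilpotent G) (N : Subgroup G) (hN : N.Normal)
    (hne : ∃ x ∈ N, x ≠ 1) : ∃ t ∈ N, t ≠ 1 ∧ ∀ g : G, g * t = t * g := by
  classical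
  obtain ⟨c, hc⟩ := hG
  obtain ⟨x, hxN, hx1⟩ := hne
  have hex : ∃ i : ℕ, ∃ y ∈ N, y ≠ 1 ∧ y ∈ Subgroup.upperCentralSeries G i :=
    ⟨c, x, hxN, hx1, by rw [hc]; exact Subgroup.mem_top x⟩
  obtain ⟨y, hyN, hy1, hyZ⟩ := Nat.find_spec hex
  have hmin := fun (i : ℕ) (hi : i < Nat.find hex) => Nat.find_min hex hi
  rcases Nat.eq_zero_or_pos (Nat.find hex) with h0 | hpos
  · rw [h0, Subgroup.upperCentralSeries_zero, Subgroup.mem_bot] at hyZ
    exact absurd hyZ hy1
  · obtain ⟨i, hi⟩ : ∃ i, Nat.find hex = i + 1 := ⟨Nat.find hex - 1, by omega⟩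
    rw [hi, Subgroup.mem_upperCentralSeries_succ_iff] at hyZ
    refine ⟨y, hyN, hy1, ?_⟩
    intro g
    by_contra hcon
    apply hmin i (by omega)
    refine ⟨y * g * y⁻¹ * g⁻¹, ?_, ?_, hyZ g⟩
    · have h1 : g * y⁻¹ * g⁻¹ ∈ N := hN.conj_mem _ (N.inv_mem hyN) g
      have h2 := N.mul_mem hyN h1
      have h3 : y * (g * y⁻¹ * g⁻¹) = y * g * y⁻¹ * g⁻¹ := by group
      rw [h3] at h2
      exact h2
    · intro h1
      apply hcon
      have h2 : y * g * y⁻¹ * g⁻¹ * (g * y) = g * y := by rw [h1, one_mul]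
      have h3 : y * g * y⁻¹ * g⁻¹ * (g * y) = y * g := by group
      rw [h3] at h2
      exact h2.symm

/-- the common kernel of the characters of prime order -/
def NZB_K (A : Type) [Group A] : Subgroup A where
  carrier := {a | ∀ r : ℕ, r.Prime → ∀ f : A →* ℂˣ, (∀ a, f a ^ r = 1) → f a = 1}
  one_mem' := fun _ _ f _ => map_one f
  mul_mem' := fun ha hb r hr f hf => by rw [map_mul, ha r hr f hf, hb r hr f hf, one_mul]
  inv_mem' := fun ha r hr f hf => by rw [map_inv, ha r hr f hf, inv_one]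

theorem NZB_K_mem {A : Type} [Group A] (a : A) :
    a ∈ NZB_K A ↔ ∀ r : ℕ, r.Prime → ∀ f : A →* ℂˣ, (∀ a, f a ^ r = 1) → f a = 1 := Iff.rfl

theorem NZB_K_normal {A : Type} [Group A] : (NZB_K A).Normal := by
  refine ⟨fun a ha g => ?_⟩
  rw [NZB_K_mem] at ha ⊢
  intro r hr f hf
  rw [map_mul, map_mul, ha r hr f hf, mul_one, ← map_mul, mul_inv_cancel, map_one]

theorem NZB : NZB_stmt := by
  intro A _ _ hnil hyp
  have hK : ∀ a ∈ NZB_K A, a = 1 := by
    by_contra hcon
    push Not at hcon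
    obtain ⟨t, htK, ht1, htc⟩ := NZB_cen hnil (NZB_K A) NZB_K_normal hcon
    have hpos : 0 < orderOf t := orderOf_pos t
    have hne1 : orderOf t ≠ 1 := fun h => ht1 (orderOf_eq_one_iff.1 h)
    set r := (orderOf t).minFac with hr
    have hrp : r.Prime := Nat.minFac_prime hne1
    obtain ⟨m, hm⟩ : r ∣ orderOf t := Nat.minFac_dvd _
    have hm0 : 0 < m := by
      rcases Nat.eq_zero_or_pos m with h | h
      · rw [h, mul_zero] at hm
        omega
      · exact h
    have h1 : t ^ m ≠ 1 := by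
      intro h
      have h2 := Nat.le_of_dvd hm0 (orderOf_dvd_of_pow_eq_one h)
      have h3 := hrp.two_le
      rw [hm] at h2
      nlinarith
    have h2 : (t ^ m) ^ r = 1 := by
      rw [← pow_mul, mul_comm, ← hm, pow_orderOf_eq_one]
    have h3 : ∀ a : A, a * t ^ m = t ^ m * a := fun a =>
      (Commute.pow_right (htc a) m : Commute a (t ^ m))
    obtain ⟨f, hf, hfz⟩ := hyp r hrp (t ^ m) h3 h1 h2
    exact hfz ((NZB_K A).pow_mem htK m r hrp f hf)
  refine ⟨?_, ?_⟩
  · intro a b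
    have h1 : a * b * (b * a)⁻¹ ∈ NZB_K A := by
      rw [NZB_K_mem]
      intro r _ f _
      rw [map_mul, map_mul, map_inv, map_mul, mul_comm (f b) (f a), mul_inv_cancel]
    have h2 := hK _ h1
    rwa [mul_inv_eq_one] at h2
  · intro a
    apply hK
    rw [NZB_K_mem]
    intro r hr f hf
    rw [map_pow]
    by_cases hd : r ∣ Nat.card A
    · have h1 : r ∈ (Nat.card A).primeFactors :=
        Nat.mem_primeFactors.2 ⟨hr, hd, Nat.card_pos.ne'⟩
      obtain ⟨c, hc⟩ := Finset.dvd_prod_of_mem (fun r : ℕ => r) h1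
      rw [hc, pow_mul, hf, one_pow]
    · have h1 : f a ^ Nat.card A = 1 := by
        rw [← map_pow, pow_card_eq_one', map_one]
      have h2 : orderOf (f a) ∣ Nat.gcd r (Nat.card A) :=
        Nat.dvd_gcd (orderOf_dvd_of_pow_eq_one (hf a)) (orderOf_dvd_of_pow_eq_one h1)
      have h3 : Nat.gcd r (Nat.card A) = 1 := (Nat.Prime.coprime_iff_not_dvd hr).2 hd
      rw [h3, Nat.dvd_one, orderOf_eq_one_iff] at h2
      rw [h2, one_pow]

end Pool.Agent.NQ
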